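import Pool.Agent.Helper35.HS3.GoalsA

/-!
# Project HS3: packet APX
-/

namespace Pool.Agent.Helper13.HS3.APX

open Pool.Agent.Helper35.HS3
open MeasureTheory Set Filter Topology Metric ContinuousLinearMap
open scoped ContDiff Convolution

theorem unif {g : E → ℝ} (hg : Continuous g) (hc : HasCompactSupport g) {ε : ℝ} (hε : 0 < ε) :
    ∃ δ > 0, ∀ x y : E, dist x y < δ → dist (g x) (g y) ≤ ε := by
  have h1 : UniformContinuous g := hg.uniformContinuous_of_tendsto_cocompact (x := 0)
    hc.is_zero_at_infty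
  obtain ⟨δ, h2, h3⟩ := Metric.uniformContinuous_iff.mp h1 ε hε
  exact ⟨δ, h2, fun x y h => (h3 h).le⟩

theorem proof : APX_stmt := by
  intro ζ hζ hc
  have hpc : ∀ i, Continuous (pd i ζ) := fun i => continuous_pd hζ
  have hps : ∀ i, HasCompactSupport (pd i ζ) := fun i =>
    hc.fderiv_apply (𝕜 := ℝ) (bv i)
  obtain ⟨R', hR'⟩ := hc.isCompact.isBounded.subset_ball (0 : E)
  have hz : ∀ x : E, R' ≤ ‖x‖ → ζ x = 0 := by
    intro x hx
    by_contra hne
    have h1 : x ∈ ball (0 : E) R' := hR' (subset_tsupport _ hne)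
    rw [mem_ball_zero_iff] at h1
    exact absurd h1 (not_lt.mpr hx)
  refine ⟨R' + 1, fun x hx => hz x (by linarith), ?_⟩
  intro ε hε
  obtain ⟨d, hd, hdζ⟩ := unif hζ.continuous hc hε
  have hall : ∀ i, ∃ δ > 0, ∀ x y : E, dist x y < δ → dist (pd i ζ x) (pd i ζ y) ≤ ε := fun i =>
    unif (hpc i) (hps i) hε
  choose e he hei using hall
  obtain ⟨r, hr0, hr1, hrd, hre⟩ : ∃ r > 0, r ≤ 1 ∧ r ≤ d ∧ ∀ i, r ≤ e i := by
    refine ⟨min (min 1 d) (min (e 0) (min (e 1) (e 2))), ?_, ?_, ?_, ?_⟩
    · exact lt_min (lt_min one_pos hd) (lt_min (he 0) (lt_min (he 1) (he 2)))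
    · exact (min_le_left _ _).trans (min_le_left _ _)
    · exact (min_le_left _ _).trans (min_le_right _ _)
    · intro i
      refine (min_le_right _ _).trans ?_
      fin_cases i
      · exact min_le_left _ _
      · exact (min_le_right _ _).trans (min_le_left _ _)
      · exact (min_le_right _ _).trans (min_le_right _ _)
  let φ : ContDiffBump (0 : E) := ⟨r / 2, r, by linarith, by linarith⟩
  have hφr : φ.rOut = r := rfl
  have hφc : Continuous (φ.normed (volume : Measure E)) :=
    (φ.contDiff_normed (n := 0)).continuous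
  have hφi : LocallyIntegrable (φ.normed (volume : Measure E)) volume := hφc.locallyIntegrable
  set η : E → ℝ := (φ.normed volume ⋆[lsmul ℝ ℝ, volume] ζ : E → ℝ) with hη
  have hη2 : ContDiff ℝ 2 η :=
    φ.hasCompactSupport_normed.contDiff_convolution_left _ φ.contDiff_normed
      hζ.continuous.locallyIntegrable
  have hηz : ∀ x : E, R' + 1 ≤ ‖x‖ → η x = 0 := by
    intro x hx
    have hzx : ζ x = 0 := hz x (by linarith)
    have h1 : dist (η x) (ζ x) ≤ 0 := by
      refine φ.dist_normed_convolution_le hζ.continuous.aestronglyMeasurable fun y hy => ?_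
      rw [mem_ball, hφr, dist_eq_norm] at hy
      have h2 : R' ≤ ‖y‖ := by
        have h3 := norm_sub_norm_le x y
        rw [norm_sub_rev] at h3
        linarith
      rw [hz y h2, hzx, dist_self]
    have h2 := dist_le_zero.mp h1
    rw [h2, hzx]
  refine ⟨η, hη2, HasCompactSupport.intro (isCompact_closedBall (0 : E) (R' + 1)) fun x hx =>
    hηz x ?_, hηz, fun x => ⟨?_, fun i => ?_⟩⟩
  · rw [mem_closedBall_zero_iff, not_le] at hx
    exact hx.le
  · rw [← Real.dist_eq]
    refine φ.dist_normed_convolution_le hζ.continuous.aestronglyMeasurable fun y hy => ?_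
    rw [mem_ball, hφr] at hy
    exact hdζ y x (lt_of_lt_of_le hy hrd)
  · have h1 : pd i η x = (φ.normed volume ⋆[lsmul ℝ ℝ, volume] pd i ζ : E → ℝ) x := by
      have h2 := hc.hasFDerivAt_convolution_right (lsmul ℝ ℝ) hφi hζ x
      rw [HasFDerivAt.pd h2]
      exact convolution_precompR_apply (lsmul ℝ ℝ) hφi (hc.fderiv (𝕜 := ℝ))
        (hζ.continuous_fderiv (by norm_num)) x (bv i)
    rw [h1, ← Real.dist_eq]
    refine φ.dist_normed_convolution_le (hpc i).aestronglyMeasurable fun y hy => ?_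
    rw [mem_ball, hφr] at hy
    exact hei i y x (lt_of_lt_of_le hy (hre i))

end Pool.Agent.Helper13.HS3.APX
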