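import Pool.Agent.Helper35.HS3.GoalsC

/-!
# Project HS3: packet SUPG
-/

namespace Pool.Agent.Helper13.HS3.SUPG

open Pool.Agent.Helper35.HS3
open MeasureTheory Set Filter Topology Metric
open scoped ContDiff

theorem proof (hMV : MV_stmt) : SUPG_stmt := by
  intro f a A K u L hN hS hL hLip
  set e : E := bv 0 with he
  have he0 : e 0 = 1 := by simp [he]
  have hne : ‖e‖ = 1 := by simp [he]
  -- the point of the plane `x₀ = s` above `z`
  set P : ℝ → E → E := fun s z => z + (s - z 0) • e with hP
  have hP0 : ∀ s z, (P s z) 0 = s := by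
    intro s z
    simp [hP, he0]
  have hPx : ∀ x : E, P (x 0) x = x := by
    intro x
    simp [hP]
  have hPd : ∀ s t z, ‖P s z - P t z‖ = |s - t| := by
    intro s t z
    have : P s z - P t z = (s - t) • e := by
      simp only [hP]
      module
    rw [this, norm_smul, hne, mul_one, Real.norm_eq_abs]
  have hPL : ∀ s t z, u (P s z) ≤ u (P t z) + L * |s - t| := by
    intro s t z
    have h1 := (abs_le.mp (hLip (P s z) (P t z))).2
    rw [hPd] at h1
    linarith
  -- upper bound
  have hub : ∀ s z, u (P s z) ≤ L * |s| := by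
    intro s z
    have h1 := hPL s 0 z
    have h2 := hS.neg (P 0 z) (hP0 0 z).le
    simp only [sub_zero] at h1
    linarith
  have hbdd : ∀ s, BddAbove (range fun z : E => u (P s z)) := by
    intro s
    refine ⟨L * |s|, ?_⟩
    rintro _ ⟨z, rfl⟩
    exact hub s z
  set g : ℝ → ℝ := fun s => ⨆ z : E, u (P s z) with hg
  have hle : ∀ s z, u (P s z) ≤ g s := fun s z => le_ciSup (hbdd s) z
  have hg1 : ∀ s t, g s ≤ g t + L * |s - t| := by
    intro s t
    refine ciSup_le fun z => ?_
    have h1 := hPL s t z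
    have h2 := hle t z
    linarith
  have hgL : ∀ s t, |g s - g t| ≤ L * |s - t| := by
    intro s t
    have h1 := hg1 s t
    have h2 := hg1 t s
    rw [abs_sub_comm t s] at h2
    rw [abs_le]
    constructor <;> linarith
  have hug : ∀ x : E, u x ≤ g (x 0) := by
    intro x
    have h1 := hle (x 0) x
    rwa [hPx] at h1
  have hneg : ∀ s, s ≤ 0 → g s ≤ 0 := by
    intro s hs
    refine ciSup_le fun z => hS.neg _ ?_
    rw [hP0]
    exact hs
  have hsup : ∀ s, ∀ ε > 0, ∃ x : E, x 0 = s ∧ g s - ε < u x := by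
    intro s ε hε
    obtain ⟨z, hz⟩ := exists_lt_of_lt_ciSup (show g s - ε < ⨆ z : E, u (P s z) by
      show g s - ε < g s
      linarith)
    exact ⟨P s z, hP0 s z, hz⟩
  refine ⟨g, hgL, hug, hneg, hsup, ?_⟩
  intro s r hr
  have hgc : Continuous g := by
    have hlw : LipschitzWith (Real.toNNReal L) g := by
      refine LipschitzWith.of_dist_le_mul fun x y => ?_
      rw [Real.dist_eq, Real.dist_eq, Real.coe_toNNReal L hL]
      exact hgL x y
    exact hlw.continuous
  have hk0 := k0_pos
  have hk1 := k1_pos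
  have hK := hN.K_pos
  have hM : 0 < k0 + K * k1 * r ^ 2 / 8 := by positivity
  refine le_of_forall_pos_le_add fun δ hδ => ?_
  set ε : ℝ := δ / (k0 + K * k1 * r ^ 2 / 8) with hε
  have hεpos : 0 < ε := div_pos hδ hM
  have hεδ : ε * (k0 + K * k1 * r ^ 2 / 8) = δ := by
    rw [hε]
    field_simp
  obtain ⟨x, hx0, hx⟩ := hsup s ε hεpos
  have hux : u x ≤ g s := by
    have := hug x
    rwa [hx0] at this
  have hlap : ∀ y ∈ ball x r, f (g s) - K * (L * r + ε) ≤ lap u y := by
    intro y hy
    rw [hS.eq]
    have h1 : ‖y - x‖ < r := by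
      rw [mem_ball, dist_eq_norm] at hy
      exact hy
    have h2 := hLip y x
    have h3 : |u y - u x| ≤ L * r := h2.trans (mul_le_mul_of_nonneg_left h1.le hL)
    have h4 : |u y - g s| ≤ L * r + ε := by
      rw [abs_le] at h3 ⊢
      constructor <;> linarith [h3.1, h3.2]
    have h5 := hN.lip (u y) (g s)
    have h6 : |f (u y) - f (g s)| ≤ K * (L * r + ε) :=
      h5.trans (mul_le_mul_of_nonneg_left h4 hK.le)
    have h7 := (abs_le.mp h6).1
    linarith
  have hmv := hMV u x r (f (g s) - K * (L * r + ε)) hS.smooth hr hlap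
  have hint : ∫ y, kk y * u (x + r • y) ≤ ∫ y : E, kk y * g (s + r * y 0) := by
    refine integral_mono ?_ ?_ ?_
    · exact integrable_kk_mul (hS.smooth.continuous.comp (by fun_prop))
    · refine integrable_kk_mul (v := fun y : E => g (s + r * y 0)) (hgc.comp ?_)
      have : Continuous (fun y : E => y 0) := (contDiff_coord (n := 0) 0).continuous
      fun_prop
    · intro y
      refine mul_le_mul_of_nonneg_left ?_ (kk_nonneg y)
      have h1 := hug (x + r • y)
      have h2 : (x + r • y) 0 = s + r * y 0 := by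
        simp [hx0]
      rwa [h2] at h1
  have hfin := hmv.trans hint
  have h8 : k0 * (g s - ε) ≤ k0 * u x := mul_le_mul_of_nonneg_left hx.le hk0.le
  nlinarith [hfin, h8, hεδ]

end Pool.Agent.Helper13.HS3.SUPG
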