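import Pool.Agent.Helper35.HS3.GoalsB

/-!
# Project HS3: packet TWO
-/

namespace Pool.Agent.Helper13.HS3.TWO

open Pool.Agent.Helper35.HS3
open MeasureTheory Set Filter Topology Metric
open scoped ContDiff

theorem arith {k0 ux A r I J C1 P u0 : ℝ} (hk0 : 0 < k0) (hr : 0 < r)
    (h1 : k0 * (ux - A - 1) * r ^ 3 ≤ I) (h2 : 3 / 4 * ((4 * r) ^ 3)⁻¹ * I ≤ J)
    (h3 : J ≤ 2 * (k0 * (C1 * P)) - k0 * u0) :
    ux ≤ A + 1 + 256 / 3 * (2 * C1 * P - u0) := by
  have hr3 : 0 < r ^ 3 := by positivity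
  have h4 : I ≤ 256 / 3 * r ^ 3 * J := by
    have e : 256 / 3 * r ^ 3 * (3 / 4 * ((4 * r) ^ 3)⁻¹ * I) = I := by
      field_simp
      ring
    rw [← e]
    exact mul_le_mul_of_nonneg_left h2 (by positivity)
  have h5 : 256 / 3 * r ^ 3 * J ≤ 256 / 3 * r ^ 3 * (2 * (k0 * (C1 * P)) - k0 * u0) :=
    mul_le_mul_of_nonneg_left h3 (by positivity)
  have h6 : (k0 * r ^ 3) * (ux - A - 1) ≤ (k0 * r ^ 3) * (256 / 3 * (2 * C1 * P - u0)) := by
    calc (k0 * r ^ 3) * (ux - A - 1) = k0 * (ux - A - 1) * r ^ 3 := by ring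
      _ ≤ I := h1
      _ ≤ _ := h4
      _ ≤ _ := h5
      _ = _ := by ring
  have h7 := le_of_mul_le_mul_left h6 (by positivity)
  linarith

theorem arith2 {A C1 s t R u0 au : ℝ} (hA : 0 ≤ A) (hC1 : 0 ≤ C1) (ht : 1 ≤ t) (hR : R ≤ s * t)
    (hau : -u0 ≤ au) (hau0 : 0 ≤ au) :
    A + 1 + 256 / 3 * (2 * C1 * R - u0) ≤ (A + 1 + 256 / 3 * (2 * C1 * s + au)) * t := by
  have h1 : 2 * C1 * R ≤ 2 * C1 * (s * t) := mul_le_mul_of_nonneg_left hR (by linarith)
  have h2 : (A + 1) * 1 ≤ (A + 1) * t := mul_le_mul_of_nonneg_left ht (by linarith)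
  have h3 : au * 1 ≤ au * t := mul_le_mul_of_nonneg_left ht hau0
  linarith

theorem proof (hMV : MV_stmt) (hS : SUPB_stmt) : TWO_stmt := by
  intro f a A K u C k hN hu hlap hub
  set C1 : ℝ := max C 0 with hC1
  have hC1n : 0 ≤ C1 := le_max_right _ _
  have hA0 : 0 < A := hN.A_pos
  refine ⟨A + 1 + 256 / 3 * (2 * C1 * 5 ^ k + |u 0|), by positivity, fun x => ?_⟩
  set r : ℝ := 1 + ‖x‖ with hr
  have hx0 : 0 ≤ ‖x‖ := norm_nonneg x
  have hr1 : 1 ≤ r := by rw [hr]; linarith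
  have hr0 : 0 < r := by linarith
  have huc : Continuous u := hu.continuous
  have h1 := hS f a A K u hN hu hlap 0 x r hr0 (by rw [sub_zero, hr]; linarith)
  have h2 := kk_lower (φ := fun y => |u y|) huc.abs 0 (r := 4 * r) (by linarith)
    (fun y _ => abs_nonneg _)
  have e2 : 4 * r / 2 = 2 * r := by ring
  rw [e2] at h2
  have h3 := hMV u 0 (4 * r) 0 hu (by linarith) (fun y _ => by rw [hlap]; exact hN.nonneg _)
  have hc1 : Continuous fun y : E => u (0 + (4 * r) • y) := by fun_prop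
  have hc2 : Continuous fun y : E => max 0 (u (0 + (4 * r) • y)) := continuous_const.max hc1
  have h4 : ∫ y, kk y * |u (0 + (4 * r) • y)| =
      2 * (∫ y, kk y * max 0 (u (0 + (4 * r) • y))) - ∫ y, kk y * u (0 + (4 * r) • y) := by
    rw [← integral_const_mul, ← integral_sub ((integrable_kk_mul hc2).const_mul 2)
      (integrable_kk_mul hc1)]
    refine integral_congr_ae (Eventually.of_forall fun y => ?_)
    beta_reduce
    rcases le_total 0 (u (0 + (4 * r) • y)) with h | h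
    · rw [abs_of_nonneg h, max_eq_right h]; ring
    · rw [abs_of_nonpos h, max_eq_left h]; ring
  have h5 : ∫ y, kk y * max 0 (u (0 + (4 * r) • y)) ≤ k0 * (C1 * (1 + 4 * r) ^ k) := by
    unfold k0
    rw [← integral_mul_const]
    refine integral_mono (integrable_kk_mul hc2) (integrable_kk.mul_const _) fun y => ?_
    beta_reduce
    rcases le_or_gt 1 ‖y‖ with hy | hy
    · rw [kk_eq_zero hy, zero_mul, zero_mul]
    · refine mul_le_mul_of_nonneg_left (max_le (by positivity) ?_) (kk_nonneg y)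
      refine (hub _).trans ?_
      have h6 : ‖(0 : E) + (4 * r) • y‖ ≤ 4 * r := by
        rw [zero_add, norm_smul, Real.norm_eq_abs, abs_of_pos (by linarith)]
        calc 4 * r * ‖y‖ ≤ 4 * r * 1 := mul_le_mul_of_nonneg_left hy.le (by linarith)
          _ = 4 * r := mul_one _
      calc C * (1 + ‖(0 : E) + (4 * r) • y‖) ^ k ≤ C1 * (1 + ‖(0 : E) + (4 * r) • y‖) ^ k :=
            mul_le_mul_of_nonneg_right (le_max_left _ _) (by positivity)
        _ ≤ C1 * (1 + 4 * r) ^ k := by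
            refine mul_le_mul_of_nonneg_left (pow_le_pow_left₀ (by positivity) ?_ k) hC1n
            linarith
  have h6 : ∫ y, kk y * |u (0 + (4 * r) • y)| ≤
      2 * (k0 * (C1 * (1 + 4 * r) ^ k)) - k0 * u 0 := by
    rw [h4]
    linarith
  have h7 := arith k0_pos hr0 h1 h2 h6
  refine h7.trans (arith2 hA0.le hC1n (one_le_pow₀ hr1) ?_ (neg_le_abs _) (abs_nonneg _))
  rw [← mul_pow]
  exact pow_le_pow_left₀ (by positivity) (by linarith) k

end Pool.Agent.Helper13.HS3.TWO
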